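import Pool.Agent.NPG.StmtsD

set_option autoImplicit false

open MeasureTheory Set Topology

namespace Pool.Agent.NPY.H26

open Pool.Agent.LSG Pool.Agent.NPY

theorem fdd (hcon : ConStmt) (hden : DenStmt) (hgen : GenStmt) (hcir : CirStmt) (hdsc : DscStmt)
    (hemb : EmbStmt) : FddStmt := by
  obtain ⟨G, hG⟩ := hcon
  refine ⟨G, hden G hG, ?_, ?_⟩
  · intro Z _ _ ι hι hD
    obtain ⟨D, hD1, hD2⟩ := hD
    refine hgen G hG Z ι hι (fun j => ⋃ i ∈ Finset.range (j + 1), D i) (fun j => ?_) ?_ ?_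
    · exact (Finset.range (j + 1)).isCompact_biUnion fun i _ => hD1 i
    · intro i j hij x hx
      simp only [mem_iUnion] at hx ⊢
      obtain ⟨m, hm, hx⟩ := hx
      refine ⟨m, ?_, hx⟩
      rw [Finset.mem_range] at hm ⊢
      omega
    · intro z
      rcases hD2 z with h | ⟨j, h⟩
      · exact Or.inl h
      · refine Or.inr ⟨j, ?_⟩
        simp only [mem_iUnion]
        exact ⟨j, Finset.mem_range.2 (Nat.lt_succ_self j), h⟩
  · obtain ⟨κ, hκ, hκi, hκ1⟩ := hcir
    have hS : ∀ v ∈ κ '' (G : Set K), ‖v‖ = 1 := by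
      rintro _ ⟨x, _, rfl⟩
      exact hκ1 x
    obtain ⟨hc, D, hD1, hD2, hD3⟩ := hdsc (κ '' (G : Set K)) hS
    obtain ⟨ι, hι, hικ⟩ := hemb G κ hκ hκi hκ1
    have h := hgen G hG _ ι hι D hD1 hD2 (fun z => by
      rcases hD3 z with ⟨x, hx, hz⟩ | h
      · left
        exact ⟨⟨x, hx⟩, Subtype.ext (by rw [hικ]; exact hz)⟩
      · exact Or.inr h)
    refine ⟨_, hc, subset_union_left, ?_, h.2⟩
    rintro v (hv | hv)
    · exact Metric.ball_subset_closedBall hv
    · rw [mem_closedBall_zero_iff]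
      exact (hS v hv).le

end Pool.Agent.NPY.H26
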