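import Pool.Agent.NPG.StmtsD

set_option autoImplicit false

open MeasureTheory Set Topology

namespace Pool.Agent.NPY.H26

open Pool.Agent.LSG Pool.Agent.NPY

theorem dm2 (hmuk : MukStmt) (hout : OutStmt) : Dm2Stmt := by
  intro G hG
  have hprob := hmuk.1
  have hGm : mu {x : K | x ∈ G} = 1 := by
    have h1 := hout G hG univ MeasurableSet.univ
    have h2 : {x : K | x ∈ G ∧ x ∈ (univ : Set K)} = {x : K | x ∈ G} := by ext x; simp
    rw [h2] at h1
    rw [h1]
    exact measure_univ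
  refine ⟨?_, ?_, ?_⟩
  · exact (isClopen_discrete ({0} : Set (Fin 2))).preimage continuous_snd
  · have s0 : sl {p : G × Fin 2 | p.2 = 0} 0 = {x : K | x ∈ G} := by
      ext x
      exact ⟨fun ⟨h, _⟩ => h, fun h => ⟨h, rfl⟩⟩
    have s1 : sl {p : G × Fin 2 | p.2 = 0} 1 = ∅ := by
      ext x
      constructor
      · rintro ⟨h, h'⟩
        have h3 : (1 : Fin 2) = 0 := h'
        exact absurd h3 (by decide)
      · intro h
        exact absurd h (notMem_empty _)
    have s2 : ∀ i, sl (univ : Set (G × Fin 2)) i = {x : K | x ∈ G} := by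
      intro i
      ext x
      exact ⟨fun ⟨h, _⟩ => h, fun h => ⟨h, mem_univ _⟩⟩
    unfold dm
    rw [Fin.sum_univ_two, Fin.sum_univ_two, s0, s1, s2, s2, hGm, measure_empty, add_zero]
    norm_num
  · exact ⟨{ toFun := fun p => p.1.1
             invFun := fun x => ⟨(x, 0), rfl⟩
             left_inv := fun p => Subtype.ext (Prod.ext rfl (Eq.symm p.2))
             right_inv := fun _ => rfl
             continuous_toFun := continuous_fst.comp continuous_subtype_val
             continuous_invFun :=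
              Continuous.subtype_mk (continuous_id.prodMk continuous_const) _ }⟩

theorem gen (hmle : MleStmt) (hzzs : ZzsStmt) (hrst : RstStmt) (hdm2 : Dm2Stmt) : GenStmt := by
  intro G hG Z _ _ ι hι D hD hmono hcov
  obtain ⟨hcl, hlt, ⟨φ⟩⟩ := hdm2 G hG
  have hι' : Topology.IsClosedEmbedding (ι ∘ φ) := hι.comp φ.isClosedEmbedding
  have key : ¬ Sur Z ↥(univ : Set (G × Fin 2)) :=
    hmle G hG 2 _ univ hcl isClopen_univ hlt Z (ι ∘ φ) hι' D hD hmono (fun z => by
      rcases hcov z with ⟨x, rfl⟩ | h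
      · exact Or.inl ⟨φ.symm x, congrArg ι (φ.apply_symm_apply x)⟩
      · exact Or.inr h)
  obtain ⟨z1, z2, z3⟩ := hzzs Z
  have k2 : ¬ Sur Z (Z ⊕ Z) := fun h => key (hrst G Z ι hι h)
  refine ⟨?_, k2, fun h => k2 (z2 h), fun h => k2 (z2 (z1 h)), fun h => k2 (z3 h)⟩
  rintro ⟨T, hT, hTs⟩
  apply key
  let S : C(G × Fin 2, ℝ) →ₗ[ℝ] C(↥(univ : Set (G × Fin 2)), ℝ) :=
    { toFun := fun f => f.comp ⟨Subtype.val, continuous_subtype_val⟩
      map_add' := by intros; rfl
      map_smul' := by intros; rfl }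
  refine ⟨S ∘ₗ T, ?_, ?_⟩
  · have h3 : Continuous fun f : {g : Z → ℝ // Continuous g} => ⇑(T ⟨f.1, f.2⟩) := hT
    change Continuous fun f : {g : Z → ℝ // Continuous g} =>
      fun p : ↥(univ : Set (G × Fin 2)) => T ⟨f.1, f.2⟩ p.1
    exact continuous_pi fun p => (continuous_apply p.1).comp h3
  · intro g
    obtain ⟨f, hf⟩ := hTs (g.comp ⟨fun p => ⟨p, mem_univ _⟩, continuous_id.subtype_mk _⟩)
    refine ⟨f, ?_⟩
    change (T f).comp ⟨Subtype.val, continuous_subtype_val⟩ = g
    rw [hf]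
    rfl

end Pool.Agent.NPY.H26
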