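import Pool.Agent.NPG.StmtsD

set_option autoImplicit false

open MeasureTheory Set Topology

namespace Pool.Agent.NPY.H26

open Pool.Agent.LSG Pool.Agent.NPY

theorem mle (hrpv : RpvStmt) (hext : ExtStmt) (hbou : BouStmt) (hxhp : XhpStmt) (hctz : CtzStmt)
    (hrng : RngStmt) (hpic : PicStmt) (hdpv : DpvStmt) (hfun : FunStmt) : MleStmt := by
  classical
  intro G hG k A B hA hB hlt Z _ _ ι hι D hD hmono hcov
  rintro ⟨T, hT, hTs⟩
  obtain ⟨c, hc⟩ := hrpv Z B T hT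
  obtain ⟨e, he, heι⟩ := hext A Z ι hι
  have hT' : PCont (fun f => (T ∘ₗ e) f) := by
    have h1 : Continuous fun f : {g : A → ℝ // Continuous g} =>
        (⟨⇑(e ⟨f.1, f.2⟩), (e ⟨f.1, f.2⟩).continuous⟩ : {g : Z → ℝ // Continuous g}) :=
      Continuous.subtype_mk he _
    have h2 : Continuous fun f : {g : Z → ℝ // Continuous g} => ⇑(T ⟨f.1, f.2⟩) := hT
    exact h2.comp h1
  obtain ⟨c', hc'⟩ := hrpv A B (T ∘ₗ e) hT'
  obtain ⟨P, hP1, hP2, hP3, hP4⟩ := hbou Z B T c hc (range ι) D hmono hcov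
  obtain ⟨j, H, A', E, hHf, hHG, hmA, hmE, hAA, hEE, hlt'⟩ :=
    hxhp G hG k A B hA hB hlt (T ∘ₗ e) c' hc' P hP1 hP2 hP3
  obtain ⟨W, hWm, hW0, hWc⟩ := hctz H hHf k A' E hmA hmE hlt'
  obtain ⟨R, hR, hRinf⟩ := hrng G hG H hHf hHG W hWm hW0
  have hu : ∀ n, ∃ u : B →₀ ℝ, n ∈ {n | 0 < mu (W ∩ R n)} → u ≠ 0 ∧
      (∀ b, u b ≠ 0 → b ∈ P j ∧ (b.1.1 : K) ∈ R n) ∧
      ∀ a : A, (u.sum fun b t => t * c' b a) = 0 := by
    intro n
    by_cases hn : n ∈ {n | 0 < mu (W ∩ R n)}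
    · obtain ⟨X, hX1, hX2, hX3⟩ := hpic G hG H hHf (W ∩ R n)
        (hWm.inter (hR.clopen n).isOpen.measurableSet) hn (k * (H : Set K).ncard + 1)
      obtain ⟨u, hu0, hu1, hu2⟩ := hdpv G H hHf hHG k A B c' A' E (P j) hAA hEE X
        (fun x hx => (hX1 x hx).1) hX2 hX3 (fun x hx => hWc x (hX1 x hx).2.1)
      refine ⟨u, fun _ => ⟨hu0, ?_, hu2⟩⟩
      intro b hb
      obtain ⟨h1, x, hx, h2⟩ := hu1 b hb
      refine ⟨h1, ?_⟩
      have h3 := hR.inv n x (hX1 x hx).2.2 _ h2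
      rwa [add_sub_cancel] at h3
    · exact ⟨0, fun h => absurd h hn⟩
  choose u hu using hu
  obtain ⟨g, hg⟩ := hfun G H R hR k B {n | 0 < mu (W ∩ R n)} u
    (fun n hn b hb => ((hu n hn).2.1 b hb).2)
  obtain ⟨f, hf⟩ := hTs g
  set f0 : C(A, ℝ) := f.comp ⟨ι, hι.continuous⟩ with hf0
  set f2 : C(Z, ℝ) := f - e f0 with hf2
  have hz : ∀ z ∈ range ι, f2 z = 0 := by
    rintro _ ⟨a, rfl⟩
    rw [hf2, ContinuousMap.sub_apply, heι, hf0]
    exact sub_self _
  obtain ⟨r, hr0, hr⟩ : ∃ r : ℝ, 0 ≤ r ∧ ∀ z ∈ D j, |f2 z| ≤ r := by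
    obtain ⟨C, hC⟩ := (hD j).exists_bound_of_continuousOn f2.continuous.continuousOn
    exact ⟨max C 0, le_max_right _ _, fun z hz => (hC z hz).trans (le_max_left _ _)⟩
  obtain ⟨N, hN⟩ := exists_nat_gt (j * r)
  obtain ⟨n, hnN, hn⟩ := hRinf N
  obtain ⟨hu0, hu1, hu2⟩ := hu n hn
  have hgn := hg n hn
  have h1 : (u n).sum (fun b t => t * T (e f0) b) = 0 := by
    set S : Finset A := (u n).support.biUnion fun b => (c' b).support with hS
    have h2 : ∀ b ∈ (u n).support, T (e f0) b = ∑ a ∈ S, c' b a * f0 a := by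
      intro b hb
      have h3 : T (e f0) b = (c' b).sum fun a t => t * f0 a := hc' f0 b
      rw [h3]
      refine Finsupp.sum_of_support_subset _ ?_ _ (fun a _ => zero_mul _)
      intro a ha
      rw [hS, Finset.mem_biUnion]
      exact ⟨b, hb, ha⟩
    rw [Finsupp.sum]
    calc ∑ b ∈ (u n).support, u n b * T (e f0) b
        = ∑ b ∈ (u n).support, ∑ a ∈ S, f0 a * (u n b * c' b a) := by
          refine Finset.sum_congr rfl fun b hb => ?_
          rw [h2 b hb, Finset.mul_sum]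
          exact Finset.sum_congr rfl fun a _ => by ring
      _ = ∑ a ∈ S, f0 a * ∑ b ∈ (u n).support, u n b * c' b a := by
          rw [Finset.sum_comm]
          exact Finset.sum_congr rfl fun a _ => by rw [Finset.mul_sum]
      _ = 0 := by
          refine Finset.sum_eq_zero fun a _ => ?_
          have h4 : ∑ b ∈ (u n).support, u n b * c' b a = 0 := hu2 a
          rw [h4, mul_zero]
  have h2 : ∀ b, g b = T (e f0) b + T f2 b := by
    intro b
    rw [← hf, hf2, map_sub, ContinuousMap.sub_apply]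
    ring
  have h3 : (u n).sum (fun b t => t * g b) = (u n).sum (fun b t => t * T f2 b) := by
    have h4 : (u n).sum (fun b t => t * g b) =
        (u n).sum (fun b t => t * T (e f0) b) + (u n).sum (fun b t => t * T f2 b) := by
      rw [← Finsupp.sum_add]
      refine Finsupp.sum_congr fun b _ => ?_
      rw [h2 b]
      ring
    rw [h4, h1, zero_add]
  have h5 : (u n).sum (fun b t => t * T f2 b) ≤ (u n).sum (fun _ t => |t|) * (j * r) := by
    rw [Finsupp.sum, Finsupp.sum, Finset.sum_mul]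
    refine Finset.sum_le_sum fun b hb => ?_
    have hb' : u n b ≠ 0 := Finsupp.mem_support_iff.1 hb
    have h6 : |T f2 b| ≤ j * r := hP4 j b (hu1 b hb').1 f2 hz r hr0 hr
    calc u n b * T f2 b ≤ |u n b * T f2 b| := le_abs_self _
      _ = |u n b| * |T f2 b| := abs_mul _ _
      _ ≤ |u n b| * (j * r) := mul_le_mul_of_nonneg_left h6 (abs_nonneg _)
  have h7 : 0 < (u n).sum (fun _ t => |t|) := by
    rw [Finsupp.sum]
    obtain ⟨b, hb⟩ := Finsupp.ne_iff.1 hu0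
    have hb' : u n b ≠ 0 := hb
    refine Finset.sum_pos' (fun _ _ => abs_nonneg _) ⟨b, Finsupp.mem_support_iff.2 hb', abs_pos.2 hb'⟩
  rw [h3] at hgn
  rw [hgn, mul_comm] at h5
  have h8 : (n : ℝ) ≤ j * r := le_of_mul_le_mul_left h5 h7
  have h9 : (N : ℝ) ≤ n := by exact_mod_cast hnN
  linarith

end Pool.Agent.NPY.H26
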