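import Pool.Agent.NPG.StmtsD

set_option autoImplicit false

open MeasureTheory Set Topology

namespace Pool.Agent.NPY.H26

open Pool.Agent.LSG Pool.Agent.NPY

theorem rst : RstStmt := by
  classical
  intro G Z _ _ ι hι
  rintro ⟨T, hT, hTs⟩
  let q : ↥(univ : Set (G × Fin 2)) → Z ⊕ Z := fun p =>
    if p.1.2 = 0 then Sum.inl (ι p.1.1) else Sum.inr (ι p.1.1)
  have hq0 : ∀ p : ↥(univ : Set (G × Fin 2)), p.1.2 = 0 → q p = Sum.inl (ι p.1.1) :=
    fun p hp => if_pos hp
  have hq1 : ∀ p : ↥(univ : Set (G × Fin 2)), p.1.2 ≠ 0 → q p = Sum.inr (ι p.1.1) :=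
    fun p hp => if_neg hp
  have h2 : Continuous fun p : ↥(univ : Set (G × Fin 2)) => p.1.2 :=
    continuous_snd.comp continuous_subtype_val
  have h1 : Continuous fun p : ↥(univ : Set (G × Fin 2)) => p.1.1 :=
    continuous_fst.comp continuous_subtype_val
  have hqc : Continuous q := by
    refine Continuous.if ?_ ?_ ?_
    · intro p hp
      exfalso
      have h3 : IsClopen {p : ↥(univ : Set (G × Fin 2)) | p.1.2 = 0} :=
        (isClopen_discrete ({0} : Set (Fin 2))).preimage h2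
      rw [h3.frontier_eq] at hp
      exact hp
    · exact continuous_inl.comp (hι.continuous.comp h1)
    · exact continuous_inr.comp (hι.continuous.comp h1)
  let S : C(Z ⊕ Z, ℝ) →ₗ[ℝ] C(↥(univ : Set (G × Fin 2)), ℝ) :=
    { toFun := fun f => f.comp ⟨q, hqc⟩
      map_add' := by intros; rfl
      map_smul' := by intros; rfl }
  refine ⟨S ∘ₗ T, ?_, ?_⟩
  · have h3 : Continuous fun f : {g : Z → ℝ // Continuous g} => ⇑(T ⟨f.1, f.2⟩) := hT
    change Continuous fun f : {g : Z → ℝ // Continuous g} => fun p => T ⟨f.1, f.2⟩ (q p)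
    exact continuous_pi fun p => (continuous_apply (q p)).comp h3
  · intro g
    let m : Fin 2 → C(G, ↥(univ : Set (G × Fin 2))) := fun i =>
      ⟨fun x => ⟨(x, i), mem_univ _⟩,
        Continuous.subtype_mk (continuous_id.prodMk continuous_const) _⟩
    obtain ⟨g0, hg0⟩ := ContinuousMap.exists_extension hι (g.comp (m 0))
    obtain ⟨g1, hg1⟩ := ContinuousMap.exists_extension hι (g.comp (m 1))
    obtain ⟨f, hf⟩ := hTs ⟨Sum.elim g0 g1, g0.continuous.sumElim g1.continuous⟩
    refine ⟨f, ?_⟩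
    change (T f).comp ⟨q, hqc⟩ = g
    rw [hf]
    ext p
    have hfin : ∀ x : Fin 2, x ≠ 0 → x = 1 := by decide
    by_cases hp : p.1.2 = 0
    · change Sum.elim g0 g1 (q p) = g p
      rw [hq0 p hp, Sum.elim_inl]
      have h4 := DFunLike.congr_fun hg0 p.1.1
      have h5 : (m 0 p.1.1) = p := Subtype.ext (Prod.ext rfl hp.symm)
      change g0 (ι p.1.1) = g (m 0 p.1.1) at h4
      rw [h4, h5]
    · change Sum.elim g0 g1 (q p) = g p
      rw [hq1 p hp, Sum.elim_inr]
      have h4 := DFunLike.congr_fun hg1 p.1.1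
      have h5 : (m 1 p.1.1) = p := Subtype.ext (Prod.ext rfl (hfin _ hp).symm)
      change g1 (ι p.1.1) = g (m 1 p.1.1) at h4
      rw [h4, h5]

end Pool.Agent.NPY.H26
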