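import Pool.Agent.Helper18_LSG.Asm
import Pool.Agent.Helper26_NPY.FDD
import Pool.Agent.Helper26_NPY.MLE
import Pool.Agent.Helper64_NPY.RNG
import Pool.Agent.Helper69_NPY.DPV
import Pool.Agent.Helper39_NPY.XHP
import Pool.Agent.Helper60_NPY.FUN
import Pool.Agent.Helper10_NPY.CIR
import Pool.Agent.Helper59_NPY.BOU
import Pool.Agent.Helper75_NPY.EXT
import Pool.Agent.Helper8_NPY.DSC
import Pool.Agent.Helper49_NPY.EMB
import Pool.Agent.Helper29_NPY.ZZS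
import Pool.Agent.Helper26_NPY.RST
import Pool.Agent.Helper26_NPY.GEN
import Pool.Agent.Helper4_NPY.CTZ
import Pool.Agent.Helper23_NPY.PIC

set_option autoImplicit false

namespace Pool.Agent.NPY.H26

open Pool.Agent.LSG Pool.Agent.NPY

theorem ext_ : ExtStmt := H75.ext Pool.Agent.LSG.H37.dug Pool.Agent.LSG.H21.bri

theorem mle_ : MleStmt :=
  mle Pool.Agent.LSG.H46.rpv ext_ H59.bou
    (H39.xhp Pool.Agent.LSG.H18.sup_ Pool.Agent.LSG.H34.trc Pool.Agent.LSG.H18.out_)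
    (H4.ctz Pool.Agent.LSG.H18.muk_) (H64.rng Pool.Agent.LSG.H18.muk_ Pool.Agent.LSG.H18.gnt_)
    (H23.pic Pool.Agent.LSG.H18.muk_) H69.dpv H60.funR

theorem gen_ : GenStmt :=
  gen mle_ H29.zzs rst (dm2 Pool.Agent.LSG.H18.muk_ Pool.Agent.LSG.H18.out_)

theorem fdd_ : FddStmt :=
  fdd Pool.Agent.LSG.H18.con_ Pool.Agent.LSG.H18.den_ gen_ H10.cir H8.dsc H49.emb

end Pool.Agent.NPY.H26
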