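import Pool.Agent.NPG.StmtsD

set_option autoImplicit false

open MeasureTheory Set Topology

namespace Pool.Agent.NPY.H26

open Pool.Agent.LSG Pool.Agent.NPY

/-- restriction to a closed subspace -/
theorem sur_restrict {X Y W : Type} [TopologicalSpace X] [TopologicalSpace Y] [TopologicalSpace W]
    [NormalSpace Y] (e : W → Y) (he : Topology.IsClosedEmbedding e) (h : Sur X Y) : Sur X W := by
  obtain ⟨T, hT, hTs⟩ := h
  let S : C(Y, ℝ) →ₗ[ℝ] C(W, ℝ) :=
    { toFun := fun f => f.comp ⟨e, he.continuous⟩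
      map_add' := by intros; rfl
      map_smul' := by intros; rfl }
  refine ⟨S ∘ₗ T, ?_, ?_⟩
  · have h3 : Continuous fun f : {g : X → ℝ // Continuous g} => ⇑(T ⟨f.1, f.2⟩) := hT
    change Continuous fun f : {g : X → ℝ // Continuous g} => fun w : W => T ⟨f.1, f.2⟩ (e w)
    exact continuous_pi fun w => (continuous_apply (e w)).comp h3
  · intro g
    obtain ⟨g', hg'⟩ := ContinuousMap.exists_extension he g
    obtain ⟨f, hf⟩ := hTs g'
    refine ⟨f, ?_⟩
    change (T f).comp ⟨e, he.continuous⟩ = g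
    rw [hf]
    exact hg'

/-- the copy of `G × Fin p` in `G × Fin q` -/
def Apq (G : AddSubgroup K) (p q : ℕ) : Set (G × Fin q) := {x | (x.2 : ℕ) < p}

theorem Apq_clopen (G : AddSubgroup K) (p q : ℕ) : IsClopen (Apq G p q) :=
  (isClopen_discrete {i : Fin q | (i : ℕ) < p}).preimage continuous_snd

theorem dm_lt (hmuk : MukStmt) (hout : OutStmt) (G : AddSubgroup K) (hG : Big G) (p q : ℕ)
    (hpq : p < q) : dm (Apq G p q) < dm (univ : Set (G × Fin q)) := by
  classical
  have hprob := hmuk.1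
  have hGm : mu {x : K | x ∈ G} = 1 := by
    have h1 := hout G hG univ MeasurableSet.univ
    have h2 : {x : K | x ∈ G ∧ x ∈ (univ : Set K)} = {x : K | x ∈ G} := by ext x; simp
    rw [h2] at h1
    rw [h1]
    exact measure_univ
  have s2 : ∀ i, sl (univ : Set (G × Fin q)) i = {x : K | x ∈ G} := by
    intro i
    ext x
    exact ⟨fun ⟨h, _⟩ => h, fun h => ⟨h, mem_univ _⟩⟩
  have s1 : ∀ i : Fin q, mu (sl (Apq G p q) i) = if (i : ℕ) < p then 1 else 0 := by
    intro i
    by_cases hi : (i : ℕ) < p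
    · rw [if_pos hi, ← hGm]
      congr 1
      ext x
      exact ⟨fun ⟨h, _⟩ => h, fun h => ⟨h, hi⟩⟩
    · rw [if_neg hi]
      have : sl (Apq G p q) i = ∅ := by
        ext x
        constructor
        · rintro ⟨_, h⟩
          exact absurd h hi
        · intro h
          exact absurd h (notMem_empty _)
      rw [this, measure_empty]
  unfold dm
  simp only [s1, s2, hGm]
  rw [Finset.sum_boole, Finset.sum_const, nsmul_eq_mul, mul_one, Finset.card_univ,
    Fintype.card_fin]
  have h3 : (Finset.univ.filter fun i : Fin q => (i : ℕ) < p).card < q := by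
    have h4 := Finset.card_lt_univ_of_notMem (s := Finset.univ.filter fun i : Fin q => (i : ℕ) < p)
      (x := ⟨p, hpq⟩) (by simp)
    rwa [Fintype.card_fin] at h4
  exact_mod_cast h3

/-- `Apq` is homeomorphic to `G × Fin p` -/
def homeoA (G : AddSubgroup K) (p q : ℕ) (hpq : p < q) : ↥(Apq G p q) ≃ₜ (G × Fin p) where
  toFun := fun x => (x.1.1, ⟨x.1.2, x.2⟩)
  invFun := fun y => ⟨(y.1, ⟨y.2, lt_trans y.2.2 hpq⟩), y.2.2⟩
  left_inv := fun _ => rfl
  right_inv := fun _ => rfl
  continuous_toFun := by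
    refine (continuous_fst.comp continuous_subtype_val).prodMk ?_
    rw [continuous_discrete_rng]
    intro c
    have h1 : (fun x : ↥(Apq G p q) => (⟨x.1.2, x.2⟩ : Fin p)) ⁻¹' {c} =
        (fun x : ↥(Apq G p q) => x.1.2) ⁻¹' {i | (i : ℕ) = c} := by
      ext x
      simp only [mem_preimage, mem_singleton_iff, mem_ofPred_eq]
      exact Fin.ext_iff
    rw [h1]
    exact (isOpen_discrete _).preimage (continuous_snd.comp continuous_subtype_val)
  continuous_invFun := by
    refine Continuous.subtype_mk (continuous_fst.prodMk ?_) _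
    exact (continuous_of_discreteTopology (f := fun i : Fin p => (⟨i, lt_trans i.2 hpq⟩ : Fin q))).comp
      continuous_snd

theorem pwr (hmle : MleStmt) (hmuk : MukStmt) (hout : OutStmt) (G : AddSubgroup K) (hG : Big G)
    (Z : Type) [TopologicalSpace Z] [TopologicalSpace.MetrizableSpace Z] (ι : G → Z)
    (hι : Topology.IsClosedEmbedding ι) (D : ℕ → Set Z) (hD : ∀ j, IsCompact (D j))
    (hmono : Monotone D) (hcov : ∀ z, z ∈ range ι ∨ ∃ j, z ∈ D j) (p q : ℕ) (hpq : p < q) :
    ¬ Sur (Z × Fin p) (G × Fin q) ∧ ¬ Sur (Z × Fin p) (Z × Fin q) := by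
  have hιp : Topology.IsClosedEmbedding (Prod.map ι (id : Fin p → Fin p)) :=
    hι.prodMap Topology.IsClosedEmbedding.id
  have hιq : Topology.IsClosedEmbedding (Prod.map ι (id : Fin q → Fin q)) :=
    hι.prodMap Topology.IsClosedEmbedding.id
  have hι' : Topology.IsClosedEmbedding (Prod.map ι (id : Fin p → Fin p) ∘ homeoA G p q hpq) :=
    hιp.comp (homeoA G p q hpq).isClosedEmbedding
  have key : ¬ Sur (Z × Fin p) ↥(univ : Set (G × Fin q)) := by
    refine hmle G hG q (Apq G p q) univ (Apq_clopen G p q) isClopen_univ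
      (dm_lt hmuk hout G hG p q hpq) (Z × Fin p) _ hι' (fun j => D j ×ˢ univ)
      (fun j => (hD j).prod isCompact_univ) (fun i j hij => prod_mono (hmono hij) le_rfl) ?_
    rintro ⟨z, i⟩
    rcases hcov z with ⟨x, rfl⟩ | ⟨j, hj⟩
    · left
      exact ⟨(homeoA G p q hpq).symm (x, i), by
        rw [Function.comp_apply, Homeomorph.apply_symm_apply]
        rfl⟩
    · exact Or.inr ⟨j, hj, mem_univ _⟩
  have hmG : TopologicalSpace.MetrizableSpace G :=
    inferInstanceAs (TopologicalSpace.MetrizableSpace (G : Set K))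
  have k1 : ¬ Sur (Z × Fin p) (G × Fin q) := fun h =>
    key (sur_restrict (Subtype.val : ↥(univ : Set (G × Fin q)) → G × Fin q)
      isClosed_univ.isClosedEmbedding_subtypeVal h)
  exact ⟨k1, fun h => k1 (sur_restrict _ hιq h)⟩

end Pool.Agent.NPY.H26
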