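import Pool.Agent.Helper26_NPY.Asm
import Pool.Agent.Helper26_NPY.PWR

set_option autoImplicit false

open MeasureTheory Set Topology

namespace Pool.Agent.NPY.H26

open Pool.Agent.LSG Pool.Agent.NPY

theorem leq_powers {X : Type} [TopologicalSpace X]
    (h : ∀ p q : ℕ, p < q → ¬ Sur (X × Fin p) (X × Fin q)) (p q : ℕ)
    (hl : LEq (X × Fin p) (X × Fin q)) : p = q := by
  obtain ⟨T, hT, hT'⟩ := hl
  rcases lt_trichotomy p q with h1 | h1 | h1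
  · exact absurd ⟨T.toLinearMap, hT, T.surjective⟩ (h p q h1)
  · exact h1
  · exact absurd ⟨T.symm.toLinearMap, hT', T.symm.surjective⟩ (h q p h1)

theorem fdp_ : ∃ G : AddSubgroup K, Dense (G : Set K) ∧
    (∀ (Z : Type) [TopologicalSpace Z] [TopologicalSpace.MetrizableSpace Z] (ι : G → Z),
      Topology.IsClosedEmbedding ι → (∃ D : ℕ → Set Z, (∀ j, IsCompact (D j)) ∧
        ∀ z, z ∈ range ι ∨ ∃ j, z ∈ D j) →
      (∀ p q : ℕ, p < q → ¬ Sur (Z × Fin p) (G × Fin q)) ∧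
      (∀ p q : ℕ, p < q → ¬ Sur (Z × Fin p) (Z × Fin q)) ∧
      (∀ p q : ℕ, LEq (Z × Fin p) (Z × Fin q) → p = q) ∧ ¬ LStable Z ∧ ¬ SStable Z) ∧
    ∃ Z : Set (EuclideanSpace ℝ (Fin 2)), Convex ℝ Z ∧
      Metric.ball (0 : EuclideanSpace ℝ (Fin 2)) 1 ⊆ Z ∧
      Z ⊆ Metric.closedBall (0 : EuclideanSpace ℝ (Fin 2)) 1 ∧
      (∀ p q : ℕ, p < q → ¬ Sur (Z × Fin p) (Z × Fin q)) ∧
      (∀ p q : ℕ, LEq (Z × Fin p) (Z × Fin q) → p = q) ∧ ¬ LStable Z ∧ ¬ SStable Z := by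
  obtain ⟨G, hG⟩ := Pool.Agent.LSG.H18.con_
  have gen1 : ∀ (Z : Type) [TopologicalSpace Z] [TopologicalSpace.MetrizableSpace Z] (ι : G → Z),
      Topology.IsClosedEmbedding ι → (∃ D : ℕ → Set Z, (∀ j, IsCompact (D j)) ∧
        ∀ z, z ∈ range ι ∨ ∃ j, z ∈ D j) →
      (∀ p q : ℕ, p < q → ¬ Sur (Z × Fin p) (G × Fin q)) ∧
      (∀ p q : ℕ, p < q → ¬ Sur (Z × Fin p) (Z × Fin q)) ∧
      (∀ p q : ℕ, LEq (Z × Fin p) (Z × Fin q) → p = q) ∧ ¬ LStable Z ∧ ¬ SStable Z := by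
    intro Z _ _ ι hι hD
    obtain ⟨D, hD1, hD2⟩ := hD
    have c1 : ∀ j, IsCompact (⋃ i ∈ Finset.range (j + 1), D i) := fun j =>
      (Finset.range (j + 1)).isCompact_biUnion fun i _ => hD1 i
    have c2 : Monotone fun j => ⋃ i ∈ Finset.range (j + 1), D i := by
      intro i j hij x hx
      simp only [mem_iUnion] at hx ⊢
      obtain ⟨m, hm, hx⟩ := hx
      refine ⟨m, ?_, hx⟩
      rw [Finset.mem_range] at hm ⊢
      omega
    have c3 : ∀ z, z ∈ range ι ∨ ∃ j, z ∈ ⋃ i ∈ Finset.range (j + 1), D i := by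
      intro z
      rcases hD2 z with h | ⟨j, h⟩
      · exact Or.inl h
      · refine Or.inr ⟨j, ?_⟩
        simp only [mem_iUnion]
        exact ⟨j, Finset.mem_range.2 (Nat.lt_succ_self j), h⟩
    have h1 := fun p q hpq => pwr mle_ Pool.Agent.LSG.H18.muk_ Pool.Agent.LSG.H18.out_ G hG Z ι hι
      _ c1 c2 c3 p q hpq
    have h2 := gen_ G hG Z ι hι _ c1 c2 c3
    exact ⟨fun p q hpq => (h1 p q hpq).1, fun p q hpq => (h1 p q hpq).2,
      leq_powers fun p q hpq => (h1 p q hpq).2, h2.2.2.2.1, h2.2.2.2.2⟩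
  refine ⟨G, Pool.Agent.LSG.H18.den_ G hG, gen1, ?_⟩
  obtain ⟨κ, hκ, hκi, hκ1⟩ := H10.cir
  have hS : ∀ v ∈ κ '' (G : Set K), ‖v‖ = 1 := by
    rintro _ ⟨x, _, rfl⟩
    exact hκ1 x
  obtain ⟨hc, D, hD1, hD2, hD3⟩ := H8.dsc (κ '' (G : Set K)) hS
  obtain ⟨ι, hι, hικ⟩ := H49.emb G κ hκ hκi hκ1
  have h := gen1 _ ι hι ⟨D, hD1, fun z => by
    rcases hD3 z with ⟨x, hx, hz⟩ | h
    · left
      exact ⟨⟨x, hx⟩, Subtype.ext (by rw [hικ]; exact hz)⟩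
    · exact Or.inr h⟩
  refine ⟨_, hc, subset_union_left, ?_, h.2⟩
  rintro v (hv | hv)
  · exact Metric.ball_subset_closedBall hv
  · rw [mem_closedBall_zero_iff]
    exact (hS v hv).le

end Pool.Agent.NPY.H26
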